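import Mathlib
import Pool.Agent.H770R2.Kad.HAsm

/-!
Bounded homomorphisms, not necessarily unital, of arbitrary C*-algebras and of von Neumann
algebras are similar to *-homomorphisms, with an explicit bound.
-/

set_option autoImplicit false

noncomputable section

namespace Pool.Agent.Y283.KS

variable {A : Type} [NonUnitalCStarAlgebra A] {K : Type} [NormedAddCommGroup K]
  [InnerProductSpace ℂ K] [CompleteSpace K]

theorem snd_le (x : Unitization ℂ A) : ‖x.snd‖ ≤ 2 * ‖x‖ := by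
  have h1 : ‖x.snd‖ = ‖((Unitization.inr x.snd : Unitization ℂ A))‖ :=
    (Unitization.norm_inr (𝕜 := ℂ) x.snd).symm
  have h2 : ((Unitization.inr x.snd : Unitization ℂ A)) =
      x - algebraMap ℂ (Unitization ℂ A) x.fst := by
    rw [Unitization.algebraMap_eq_inl]
    exact eq_sub_of_add_eq' (Unitization.inl_fst_add_inr_snd_eq x)
  have h3 : ‖algebraMap ℂ (Unitization ℂ A) x.fst‖ ≤ ‖x‖ := by
    rw [norm_algebraMap']
    rw [Unitization.norm_eq_sup]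
    exact le_sup_left
  rw [h1, h2]
  calc ‖x - algebraMap ℂ (Unitization ℂ A) x.fst‖
      ≤ ‖x‖ + ‖algebraMap ℂ (Unitization ℂ A) x.fst‖ := norm_sub_le _ _
    _ ≤ 2 * ‖x‖ := by linarith

theorem fst_le (x : Unitization ℂ A) : ‖x.fst‖ ≤ ‖x‖ := by
  rw [Unitization.norm_eq_sup]
  exact le_sup_left

/-- Every bounded homomorphism of a C*-algebra into `B(K)` is similar to a *-homomorphism. -/
theorem similar (π : A →ₙₐ[ℂ] (K →L[ℂ] K)) (c : ℝ) (hc : 0 ≤ c)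
    (hb : ∀ x, ‖π x‖ ≤ c * ‖x‖) :
    ∃ S : (K →L[ℂ] K)ˣ,
      ‖(S : K →L[ℂ] K)‖ ^ 2 ≤ 864 * (4 * c + 2) ^ 29 ∧
      ‖((S⁻¹ : (K →L[ℂ] K)ˣ) : K →L[ℂ] K)‖ ^ 2 ≤ 864 * (4 * c + 2) ^ 29 ∧
      ∀ x : A, (S : K →L[ℂ] K) * π (star x) * ((S⁻¹ : (K →L[ℂ] K)ˣ) : K →L[ℂ] K)
        = star ((S : K →L[ℂ] K) * π x * ((S⁻¹ : (K →L[ℂ] K)ˣ) : K →L[ℂ] K)) := by
  set u : Unitization ℂ A →ₐ[ℂ] (K →L[ℂ] K) := Unitization.lift π with hu
  have hux : ∀ x : Unitization ℂ A, u x = algebraMap ℂ (K →L[ℂ] K) x.fst + π x.snd := by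
    intro x
    have h1 : u (Unitization.inr x.snd) = π x.snd := by
      have h2 := Unitization.lift_symm_apply_apply u x.snd
      rw [hu, Equiv.symm_apply_apply] at h2
      rw [hu]
      exact h2.symm
    have h3 : u (algebraMap ℂ (Unitization ℂ A) x.fst) = algebraMap ℂ (K →L[ℂ] K) x.fst :=
      AlgHom.commutes u x.fst
    rw [← h1, ← h3, ← map_add, Unitization.algebraMap_eq_inl,
      Unitization.inl_fst_add_inr_snd_eq]
  have hone : ‖(1 : K →L[ℂ] K)‖ ≤ 1 := ContinuousLinearMap.norm_id_le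
  have hbu : ∀ x : Unitization ℂ A, ‖u x‖ ≤ (2 * c + 1) * ‖x‖ := by
    intro x
    rw [hux]
    have h1 : ‖algebraMap ℂ (K →L[ℂ] K) x.fst‖ ≤ ‖x‖ := by
      rw [Algebra.algebraMap_eq_smul_one]
      refine (norm_smul_le _ _).trans ?_
      calc ‖x.fst‖ * ‖(1 : K →L[ℂ] K)‖ ≤ ‖x.fst‖ * 1 := by gcongr
        _ ≤ ‖x‖ := by rw [mul_one]; exact fst_le x
    have h2 : ‖π x.snd‖ ≤ c * (2 * ‖x‖) :=
      (hb x.snd).trans (mul_le_mul_of_nonneg_left (snd_le x) hc)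
    calc ‖algebraMap ℂ (K →L[ℂ] K) x.fst + π x.snd‖
        ≤ ‖algebraMap ℂ (K →L[ℂ] K) x.fst‖ + ‖π x.snd‖ := norm_add_le _ _
      _ ≤ ‖x‖ + c * (2 * ‖x‖) := add_le_add h1 h2
      _ = (2 * c + 1) * ‖x‖ := by ring
  obtain ⟨S, S', h1, h2, h3, h4, h5⟩ := H770R2.Kad.fin_similar (Unitization ℂ A) K
    u.toLinearMap ⟨fun a b => map_mul u a b, map_one u⟩ (2 * c + 1) (by linarith) hbu
  have e : 864 * (2 * (2 * c + 1)) ^ 29 = 864 * (4 * c + 2) ^ 29 := by ring_nf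
  refine ⟨⟨S, S', h1, h2⟩, ?_, ?_, fun x => ?_⟩
  · rw [← e]; exact h3
  · rw [← e]; exact h4
  · have h6 := h5 (Unitization.inr x)
    have h7 : ∀ y : A, u (Unitization.inr y) = π y := by
      intro y
      rw [hux]
      simp
    have h8 : (star (Unitization.inr x) : Unitization ℂ A) = Unitization.inr (star x) :=
      (Unitization.inr_star x).symm
    simp only [AlgHom.toLinearMap_apply] at h6
    rw [h8, h7, h7] at h6
    exact h6.symm

/-- Bounded homomorphisms of von Neumann algebras. -/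
theorem vn {H : Type} [NormedAddCommGroup H] [InnerProductSpace ℂ H] [CompleteSpace H]
    (M : VonNeumannAlgebra H) (π : (H →L[ℂ] H) → (K →L[ℂ] K))
    (hadd : ∀ x ∈ M, ∀ y ∈ M, π (x + y) = π x + π y)
    (hsmul : ∀ z : ℂ, ∀ x ∈ M, π (z • x) = z • π x)
    (hmul : ∀ x ∈ M, ∀ y ∈ M, π (x * y) = π x * π y)
    (c : ℝ) (hc : 0 ≤ c) (hb : ∀ x ∈ M, ‖π x‖ ≤ c * ‖x‖) :
    ∃ S : (K →L[ℂ] K)ˣ,
      ‖(S : K →L[ℂ] K)‖ ^ 2 ≤ 864 * (4 * c + 2) ^ 29 ∧
      ‖((S⁻¹ : (K →L[ℂ] K)ˣ) : K →L[ℂ] K)‖ ^ 2 ≤ 864 * (4 * c + 2) ^ 29 ∧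
      ∀ x ∈ M, (S : K →L[ℂ] K) * π (star x) * ((S⁻¹ : (K →L[ℂ] K)ˣ) : K →L[ℂ] K)
        = star ((S : K →L[ℂ] K) * π x * ((S⁻¹ : (K →L[ℂ] K)ˣ) : K →L[ℂ] K)) := by
  have hcl : IsClosed ((M.toStarSubalgebra : StarSubalgebra ℂ (H →L[ℂ] H)) :
      Set (H →L[ℂ] H)) := by
    rw [VonNeumannAlgebra.coe_toStarSubalgebra, ← M.centralizer_centralizer]
    have : ∀ s : Set (H →L[ℂ] H), IsClosed (Set.centralizer s) := by
      intro s
      have : Set.centralizer s = ⋂ m ∈ s, {c : H →L[ℂ] H | m * c = c * m} := by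
        ext c
        simp [Set.mem_centralizer_iff]
      rw [this]
      exact isClosed_biInter fun m _ => isClosed_eq (by fun_prop) (by fun_prop)
    exact this _
  have _hcl : IsClosed ((M.toStarSubalgebra : StarSubalgebra ℂ (H →L[ℂ] H)) :
      Set (H →L[ℂ] H)) := hcl
  let inst : CStarAlgebra M.toStarSubalgebra := StarSubalgebra.cstarAlgebra _
  let ρ : M.toStarSubalgebra →ₙₐ[ℂ] (K →L[ℂ] K) :=
    { toFun := fun x => π x.1
      map_smul' := fun z x => hsmul z x.1 x.2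
      map_zero' := by
        have := hsmul 0 0 (zero_mem M)
        simpa using this
      map_add' := fun x y => hadd x.1 x.2 y.1 y.2
      map_mul' := fun x y => hmul x.1 x.2 y.1 y.2 }
  obtain ⟨S, h1, h2, h3⟩ := similar ρ c hc (fun x => hb x.1 x.2)
  exact ⟨S, h1, h2, fun x hx => h3 ⟨x, hx⟩⟩

end Pool.Agent.Y283.KS
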